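import Pool.Agent.Lib.MP_a3e05c_co.IRR.Main
import Pool.Agent.Lib.MP_a3e05c_co.KL.BridgeB

/-! Schrijver's upper bound for the number of Eulerian orientations of a simple graph. -/

set_option autoImplicit false

namespace Pool.Agent.Results.MP_a3e05c_co.SchrijverBound

universe u v

/-- `IsEulerianOrientation G D` says that the relation `D` is an Eulerian orientation of the
simple graph `G`, where `D x y` means that the edge `xy` is directed from `x` to `y`: only edges
of `G` are directed, every edge has exactly one of its two directions, and at every vertex the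
out-degree equals the in-degree. -/
structure IsEulerianOrientation {V : Type u} (G : SimpleGraph V) (D : V → V → Prop) : Prop where
  adj_of_dir : ∀ x y : V, D x y → G.Adj x y
  one_dir : ∀ x y : V, G.Adj x y → (D x y ↔ ¬ D y x)
  balanced : ∀ x : V, {y : V | D x y}.ncard = {y : V | D y x}.ncard

/-- `EO G` is the number of Eulerian orientations of `G`. -/
noncomputable def EO {V : Type u} (G : SimpleGraph V) : ℕ :=
  Nat.card {D : V → V → Prop // IsEulerianOrientation G D}

/-- `RT m` is the number of Eulerian orientations of the complete graph on `m` labelled vertices,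
that is, the number of regular tournaments on `m` labelled vertices. -/
noncomputable def RT (m : ℕ) : ℕ := EO (⊤ : SimpleGraph (Fin m))

lemma EO_eq_EOc {V : Type} [Fintype V] [DecidableEq V] (G : SimpleGraph V)
    [DecidableRel G.Adj] : EO G = _root_.MP_a3e05c_co.KL.EOc V G := by
  classical
  unfold EO _root_.MP_a3e05c_co.KL.EOc
  have e : {D : V → V → Prop // IsEulerianOrientation G D} ≃
      {o : V → V → Bool // (∀ u w : V, o u w = true → G.Adj u w) ∧
        (∀ u w : V, G.Adj u w → (o u w = true ↔ o w u = false)) ∧
        (∀ x : V, (Finset.univ.filter (fun w => o x w = true)).card =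
              (Finset.univ.filter (fun w => o w x = true)).card)} := by
    refine Equiv.subtypeEquiv
      ((Equiv.refl V).arrowCongr ((Equiv.refl V).arrowCongr Equiv.propEquivBool)) ?_
    intro D
    have hD : ∀ x y : V, (((Equiv.refl V).arrowCongr
        ((Equiv.refl V).arrowCongr Equiv.propEquivBool)) D) x y = decide (D x y) := by
      intro x y
      simp [Equiv.arrowCongr, Equiv.propEquivBool]
    have hcard1 : ∀ x : V, {y : V | D x y}.ncard =
        (Finset.univ.filter (fun y => D x y)).card := by
      intro x
      rw [← Set.ncard_coe_finset]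
      congr 1
      ext y
      simp
    have hcard2 : ∀ x : V, {y : V | D y x}.ncard =
        (Finset.univ.filter (fun y => D y x)).card := by
      intro x
      rw [← Set.ncard_coe_finset]
      congr 1
      ext y
      simp
    constructor
    · intro h
      refine ⟨?_, ?_, ?_⟩
      · intro x y hxy
        rw [hD] at hxy
        exact h.adj_of_dir x y (by simpa using hxy)
      · intro x y hxy
        rw [hD, hD]
        simpa using h.one_dir x y hxy
      · intro x
        have := h.balanced x
        rw [hcard1, hcard2] at this
        simpa only [hD, decide_eq_true_eq] using this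
    · rintro ⟨h1, h2, h3⟩
      refine ⟨?_, ?_, ?_⟩
      · intro x y hxy
        apply h1
        rw [hD]
        simpa using hxy
      · intro x y hxy
        have := h2 x y hxy
        rw [hD, hD] at this
        simpa using this
      · intro x
        have := h3 x
        rw [hcard1, hcard2]
        simpa only [hD, decide_eq_true_eq] using this
  rw [Nat.card_congr e, Nat.card_eq_fintype_card, Fintype.card_subtype]

lemma ncard_equiv {V : Type u} {W : Type v} (e : V ≃ W) (P : W → Prop) :
    {x : V | P (e x)}.ncard = {y : W | P y}.ncard := by
  have h : {y : W | P y} = e '' {x : V | P (e x)} := by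
    ext y
    constructor
    · intro hy
      exact ⟨e.symm y, by simpa using hy, by simp⟩
    · rintro ⟨x, hx, rfl⟩
      exact hx
  rw [h, Set.ncard_image_of_injective _ e.injective]

lemma EO_congr {V : Type u} {W : Type v} (e : V ≃ W) (G : SimpleGraph V) (H : SimpleGraph W)
    (h : ∀ x y, H.Adj (e x) (e y) ↔ G.Adj x y) : EO G = EO H := by
  unfold EO
  refine Nat.card_congr ?_
  refine Equiv.subtypeEquiv (e.arrowCongr (e.arrowCongr (Equiv.refl Prop))) ?_
  intro D
  have hD : ∀ x y : W, ((e.arrowCongr (e.arrowCongr (Equiv.refl Prop))) D) x y =
      D (e.symm x) (e.symm y) := by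
    intro x y
    simp [Equiv.arrowCongr]
  constructor
  · intro hE
    refine ⟨?_, ?_, ?_⟩
    · intro x y hxy
      rw [hD] at hxy
      have := hE.adj_of_dir _ _ hxy
      rw [← h] at this
      simpa using this
    · intro x y hxy
      rw [hD, hD]
      apply hE.one_dir
      rw [← h]
      simpa using hxy
    · intro x
      have h1 := hE.balanced (e.symm x)
      have h2 : {y : W | ((e.arrowCongr (e.arrowCongr (Equiv.refl Prop))) D) x y}.ncard =
          {y : V | D (e.symm x) y}.ncard := by
        rw [← ncard_equiv e]
        simp only [hD, Equiv.symm_apply_apply]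
      have h3 : {y : W | ((e.arrowCongr (e.arrowCongr (Equiv.refl Prop))) D) y x}.ncard =
          {y : V | D y (e.symm x)}.ncard := by
        rw [← ncard_equiv e]
        simp only [hD, Equiv.symm_apply_apply]
      rw [h2, h3, h1]
  · intro hE
    refine ⟨?_, ?_, ?_⟩
    · intro x y hxy
      rw [← h]
      apply hE.adj_of_dir
      rw [hD]
      simpa using hxy
    · intro x y hxy
      have h1 := hE.one_dir (e x) (e y) ((h x y).2 hxy)
      rw [hD, hD] at h1
      simpa using h1
    · intro x
      have h1 := hE.balanced (e x)
      rw [← ncard_equiv e, ← ncard_equiv e] at h1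
      simpa only [hD, Equiv.symm_apply_apply] using h1

/-- Schrijver's conjecture (1983). Every finite simple graph `G` in which all degrees are even
has at most `∏ v, RT (deg v + 1) ^ (1 / (deg v + 1))` Eulerian orientations, where `RT m` is the
number of regular tournaments on `m` labelled vertices. -/
theorem result : ∀ (V : Type u) [Fintype V] (G : SimpleGraph V) [DecidableRel G.Adj],
    (∀ v : V, Even (G.degree v)) →
      (EO G : ℝ) ≤ ∏ v : V, (RT (G.degree v + 1) : ℝ) ^ (1 / ((G.degree v : ℝ) + 1)) := by
  intro V _ G _ hev
  classical
  let e : Fin (Fintype.card V) ≃ V := (Fintype.equivFin V).symm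
  let H : SimpleGraph (Fin (Fintype.card V)) := G.comap e
  have hH : ∀ x y, G.Adj (e x) (e y) ↔ H.Adj x y := fun x y => Iff.rfl
  let f : H ≃g G := SimpleGraph.Iso.comap e G
  have hdeg : ∀ x, G.degree (e x) = H.degree x := fun x => f.degree_eq x
  have hevH : ∀ x, Even (H.degree x) := fun x => by
    rw [← hdeg]
    exact hev _
  have key := _root_.MP_a3e05c_co.KL.bound_of_PA H hevH fun E _ _ hd hs hdg =>
    _root_.MP_a3e05c_co.KL.PA_univ_le hs fun v => by
      rw [hdg v]
      exact hevH v
  rw [← EO_eq_EOc, EO_congr e H G hH] at key
  refine key.trans (le_of_eq ?_)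
  rw [← Equiv.prod_comp e]
  refine Finset.prod_congr rfl fun x _ => ?_
  rw [hdeg x]
  unfold RT
  rw [EO_eq_EOc]

end Pool.Agent.Results.MP_a3e05c_co.SchrijverBound
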